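import Pool.Agent.U875.SP.Tree
import Pool.Agent.Y358.IN.Dirac
import Pool.Agent.R129.Ball.Main

/-!
# Graphs without nowhere-zero 5-flow are spread
-/

set_option autoImplicit false
set_option linter.unusedSectionVars false

namespace Pool.Agent.U875.SP

open Finset Pool.Agent.TH676.Z Pool.Agent.Y335.FL Pool.Agent.Y358.IN Pool.Agent.R129.Ball

variable {V E : Type} [Fintype V] [DecidableEq V] [Fintype E] [DecidableEq E]

theorem near_of (s d : E → V) (p : ℕ → V) : ∀ n : ℕ, (∀ i < n, ∃ e, (s e = p i ∧ d e = p (i + 1)) ∨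
      (s e = p (i + 1) ∧ d e = p i)) → Near s d n (p 0) (p n)
  | 0, _ => Near.refl _ _
  | n + 1, h => by
    have ih := near_of s d p n (fun i hi => h i (Nat.lt_succ_of_lt hi))
    by_cases hne : p n = p (n + 1)
    · rw [← hne]
      exact ih.succ
    · exact Near.step ih ⟨hne, h n (Nat.lt_succ_self n)⟩

/-- **Graphs without nowhere-zero flow modulo five are spread.** -/
theorem spread_of (hc : St_contract) (src dst : E → V) (hbr : Br src dst ∅ ∅)
    (hn : ¬ FlowOn src dst ∅ ∅) : Spread src dst := by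
  classical
  obtain ⟨s, d, ⟨π, rfl, rfl⟩, hM⟩ := exists_minC (ccR src dst) src dst ⟨id, rfl, rfl⟩ hbr hn
  have h3 := threeC hc hM
  have hgi := girthC hc hM
  by_cases hl : ∀ e, (π ∘ src) e = (π ∘ dst) e
  · exact absurd (flow_of_loops hl) hM.nf
  push Not at hl
  obtain ⟨e0, he0⟩ := hl
  let G : SimpleGraph V :=
    { Adj := Adj (π ∘ src) (π ∘ dst)
      symm := ⟨fun a b h => GiAux.adj_symm h⟩
      loopless := ⟨fun a h => h.1 rfl⟩ }
  have hG : ∀ a b, G.Adj a b ↔ Adj (π ∘ src) (π ∘ dst) a b := fun a b => Iff.rfl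
  have h12 : ∀ (w : V) (c : G.Walk w w), c.IsCycle → 12 ≤ c.length :=
    fun w c hc => Ord.cycle_len hgi G hG c hc
  have hx : ∃ u, G.Adj ((π ∘ src) e0) u := ⟨(π ∘ dst) e0, he0, e0, Or.inl ⟨rfl, rfl⟩⟩
  -- three neighbours of each vertex
  have hex : ∀ v : V, ∃ f : Fin 3 → V, (∃ u, G.Adj v u) →
      (∀ c, G.Adj v (f c)) ∧ Function.Injective f := by
    intro v
    by_cases hv : ∃ u, G.Adj v u
    · obtain ⟨u, hu⟩ := hv
      obtain ⟨a, b, c, ha, hb, hc', hab, hac, hbc⟩ := h3 v u hu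
      refine ⟨![a, b, c], fun _ => ⟨?_, ?_⟩⟩
      · intro i
        fin_cases i
        · exact ha
        · exact hb
        · exact hc'
      · intro i j hij
        fin_cases i <;> fin_cases j <;> simp_all
    · exact ⟨fun _ => v, fun h => absurd h hv⟩
  choose nb hnb using hex
  have hN : Nb G nb := ⟨fun v c hv => (hnb v hv).1 c, fun v hv => (hnb v hv).2⟩
  refine ⟨fun w => {v | π v = tr nb ((π ∘ src) e0) w}, ?_, ?_⟩
  · intro w c _
    obtain ⟨-, e, he⟩ := (hG _ _).1 (tr_adj hN hx w c)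
    refine ⟨e, ?_⟩
    rcases he with ⟨h4, h5⟩ | ⟨h4, h5⟩
    · exact Or.inl ⟨h4, h5⟩
    · exact Or.inr ⟨h5, h4⟩
  · intro a b ha hb u hu v hv m hw
    obtain ⟨p, hp0, hpm, hp⟩ := hw
    have h4 := near_of (π ∘ src) (π ∘ dst) (fun i => π (p i)) m (by
      intro i hi
      obtain ⟨e, he⟩ := hp i hi
      refine ⟨e, ?_⟩
      rcases he with ⟨h5, h6⟩ | ⟨h5, h6⟩
      · exact Or.inl ⟨congrArg π h5, congrArg π h6⟩
      · exact Or.inr ⟨congrArg π h5, congrArg π h6⟩)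
    simp only [hp0, hpm] at h4
    have hu' : π u = tr nb ((π ∘ src) e0) a := hu
    have hv' : π v = tr nb ((π ∘ src) e0) b := hv
    rw [hu', hv'] at h4
    obtain ⟨q, hq⟩ := near_walk G hG h4
    exact (tr_dist h12 hN hx a b ha hb q).trans hq

/-! ## Packings -/

theorem Spread.apart {src dst : E → V} {X : List (Fin 3) → Set V}
    (h : ∀ a b, IsVertex a → IsVertex b → ∀ u ∈ X a, ∀ v ∈ X b, Apart src dst (sf a b) u v)
    {a b : List (Fin 3)} (ha : IsVertex a) (hb : IsVertex b) {u v : V} (hu : u ∈ X a) (hv : v ∈ X b)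
    {d : ℕ} (hd : d ≤ sf a b) : Apart src dst d u v :=
  fun m hm => hd.trans (h a b ha hb u hu v hv m hm)

/-- the words are vertices and pairwise far -/
def okV (d : ℕ) (L : List (List (Fin 3))) : Bool :=
  L.all (fun a => decide (IsVertex (a ++ [0])) && decide (IsVertex a)) &&
    (List.range L.length).all (fun i => (List.range L.length).all (fun j =>
      decide (i = j) || decide (d ≤ sf (L.getD i []) (L.getD j []))))

/-- the pairs are edges and pairwise far -/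
def okE (d : ℕ) (L : List (List (Fin 3) × Fin 3)) : Bool :=
  L.all (fun a => decide (IsVertex (a.1 ++ [a.2])) && decide (IsVertex a.1) &&
      decide (1 ≤ sf a.1 (a.1 ++ [a.2]))) &&
    (List.range L.length).all (fun i => (List.range L.length).all (fun j =>
      decide (i = j) ||
        (decide (d ≤ sf (L.getD i ([], 0)).1 (L.getD j ([], 0)).1) &&
          decide (d ≤ sf (L.getD i ([], 0)).1 ((L.getD j ([], 0)).1 ++ [(L.getD j ([], 0)).2])) &&
          decide (d ≤ sf ((L.getD i ([], 0)).1 ++ [(L.getD i ([], 0)).2]) (L.getD j ([], 0)).1) &&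
          decide (d ≤ sf ((L.getD i ([], 0)).1 ++ [(L.getD i ([], 0)).2])
            ((L.getD j ([], 0)).1 ++ [(L.getD j ([], 0)).2])))))

theorem far_vertices {src dst : E → V} (hS : Spread src dst) {k d : ℕ}
    (L : List (List (Fin 3))) (hk : L.length = k) (h : okV d L = true) :
    FarVertices src dst k d := by
  obtain ⟨X, hX1, hX2⟩ := hS
  unfold okV at h
  rw [Bool.and_eq_true] at h
  obtain ⟨h1, h2⟩ := h
  rw [List.all_eq_true] at h1 h2
  have hne : ∀ i : Fin k, ∃ v, v ∈ X (L.getD i []) ∧ IsVertex (L.getD i []) := by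
    intro i
    have hi : (i : ℕ) < L.length := by rw [hk]; exact i.2
    have h3 := h1 (L.getD i []) (by
      rw [List.getD_eq_getElem _ _ hi]
      exact List.getElem_mem hi)
    rw [Bool.and_eq_true, decide_eq_true_eq, decide_eq_true_eq] at h3
    obtain ⟨e, he⟩ := hX1 _ _ h3.1
    rcases he with he | he
    · exact ⟨_, he.1, h3.2⟩
    · exact ⟨_, he.1, h3.2⟩
  choose x hx hx' using hne
  refine ⟨x, fun i j hij => ?_⟩
  have hi : (i : ℕ) < L.length := by rw [hk]; exact i.2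
  have hj : (j : ℕ) < L.length := by rw [hk]; exact j.2
  have h3 := h2 i (List.mem_range.2 hi)
  rw [List.all_eq_true] at h3
  have h4 := h3 j (List.mem_range.2 hj)
  rw [Bool.or_eq_true, decide_eq_true_eq, decide_eq_true_eq] at h4
  rcases h4 with h4 | h4
  · exact absurd (Fin.ext h4) hij
  · exact Spread.apart hX2 (hx' i) (hx' j) (hx i) (hx j) h4

theorem far_edges {src dst : E → V} (hS : Spread src dst) {k d : ℕ}
    (L : List (List (Fin 3) × Fin 3)) (hk : L.length = k) (h : okE d L = true) :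
    FarEdges src dst k d := by
  obtain ⟨X, hX1, hX2⟩ := hS
  unfold okE at h
  rw [Bool.and_eq_true] at h
  obtain ⟨h1, h2⟩ := h
  rw [List.all_eq_true] at h1 h2
  have hne : ∀ i : Fin k, ∃ e, ((src e ∈ X (L.getD i ([], 0)).1 ∧
      dst e ∈ X ((L.getD i ([], 0)).1 ++ [(L.getD i ([], 0)).2])) ∨
      (dst e ∈ X (L.getD i ([], 0)).1 ∧
      src e ∈ X ((L.getD i ([], 0)).1 ++ [(L.getD i ([], 0)).2]))) ∧
      IsVertex (L.getD i ([], 0)).1 ∧ IsVertex ((L.getD i ([], 0)).1 ++ [(L.getD i ([], 0)).2]) ∧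
      1 ≤ sf (L.getD i ([], 0)).1 ((L.getD i ([], 0)).1 ++ [(L.getD i ([], 0)).2]) := by
    intro i
    have hi : (i : ℕ) < L.length := by rw [hk]; exact i.2
    have h3 := h1 (L.getD i ([], 0)) (by
      rw [List.getD_eq_getElem _ _ hi]
      exact List.getElem_mem hi)
    rw [Bool.and_eq_true, Bool.and_eq_true, decide_eq_true_eq, decide_eq_true_eq,
      decide_eq_true_eq] at h3
    obtain ⟨e, he⟩ := hX1 _ _ h3.1.1
    exact ⟨e, he, h3.1.2, h3.1.1, h3.2⟩
  choose x hx hx1 hx2 hx3 using hne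
  have hloop : ∀ u, HasWalk src dst 0 u u := fun u => ⟨fun _ => u, rfl, rfl, fun i hi =>
    absurd hi (Nat.not_lt_zero i)⟩
  refine ⟨x, fun i hi => ?_, fun i j hij => ?_⟩
  · rcases hx i with ⟨h4, h5⟩ | ⟨h4, h5⟩
    · have h6 := Spread.apart hX2 (hx1 i) (hx2 i) h4 h5 (hx3 i)
      rw [hi] at h6
      exact absurd (h6 0 (hloop _)) (by norm_num)
    · have h6 := Spread.apart hX2 (hx1 i) (hx2 i) h4 h5 (hx3 i)
      rw [hi] at h6
      exact absurd (h6 0 (hloop _)) (by norm_num)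
  · have hi : (i : ℕ) < L.length := by rw [hk]; exact i.2
    have hj : (j : ℕ) < L.length := by rw [hk]; exact j.2
    have h3 := h2 i (List.mem_range.2 hi)
    rw [List.all_eq_true] at h3
    have h4 := h3 j (List.mem_range.2 hj)
    rw [Bool.or_eq_true, Bool.and_eq_true, Bool.and_eq_true, Bool.and_eq_true, decide_eq_true_eq,
      decide_eq_true_eq, decide_eq_true_eq, decide_eq_true_eq, decide_eq_true_eq] at h4
    rcases h4 with h4 | ⟨⟨⟨h4, h5⟩, h6⟩, h7⟩
    · exact absurd (Fin.ext h4) hij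
    · rcases hx i with ⟨a1, a2⟩ | ⟨a1, a2⟩ <;> rcases hx j with ⟨b1, b2⟩ | ⟨b1, b2⟩
      · exact ⟨Spread.apart hX2 (hx1 i) (hx1 j) a1 b1 h4, Spread.apart hX2 (hx1 i) (hx2 j) a1 b2 h5,
          Spread.apart hX2 (hx2 i) (hx1 j) a2 b1 h6, Spread.apart hX2 (hx2 i) (hx2 j) a2 b2 h7⟩
      · exact ⟨Spread.apart hX2 (hx1 i) (hx2 j) a1 b2 h5, Spread.apart hX2 (hx1 i) (hx1 j) a1 b1 h4,
          Spread.apart hX2 (hx2 i) (hx2 j) a2 b2 h7, Spread.apart hX2 (hx2 i) (hx1 j) a2 b1 h6⟩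
      · exact ⟨Spread.apart hX2 (hx2 i) (hx1 j) a2 b1 h6, Spread.apart hX2 (hx2 i) (hx2 j) a2 b2 h7,
          Spread.apart hX2 (hx1 i) (hx1 j) a1 b1 h4, Spread.apart hX2 (hx1 i) (hx2 j) a1 b2 h5⟩
      · exact ⟨Spread.apart hX2 (hx2 i) (hx2 j) a2 b2 h7, Spread.apart hX2 (hx2 i) (hx1 j) a2 b1 h6,
          Spread.apart hX2 (hx1 i) (hx2 j) a1 b2 h5, Spread.apart hX2 (hx1 i) (hx1 j) a1 b1 h4⟩

def v18 : List (List (Fin 3)) :=
  [[0], [1, 0, 0], [0, 0, 0, 0], [0, 0, 1, 0], [0, 1, 0, 0], [0, 1, 1, 0], [1, 0, 1, 0], [1,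
   1, 0, 0], [1, 1, 1, 1], [2, 0], [2, 0, 0, 0, 0], [2, 0, 0, 1, 0], [2, 0, 1, 0, 1], [2, 0,
   1, 1, 0], [2, 1, 0, 0, 0], [2, 1, 0, 1, 0], [2, 1, 1, 0, 0], [2, 1, 1, 1, 0]]

theorem v18_far {src dst : E → V} (h : Spread src dst) : FarVertices src dst 18 3 :=
  far_vertices h v18 rfl (by decide +kernel)

def v13 : List (List (Fin 3)) :=
  [[], [0, 0, 0, 0], [0, 0, 1, 0], [0, 1, 0, 0], [0, 1, 1, 0], [1, 0, 0, 0], [1, 0, 1, 0], [1,
   1, 0, 0], [1, 1, 1, 0], [2, 0, 0, 0], [2, 0, 1, 0], [2, 1, 0, 0], [2, 1, 1, 0]]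

theorem v13_far {src dst : E → V} (h : Spread src dst) : FarVertices src dst 13 4 :=
  far_vertices h v13 rfl (by decide +kernel)

def v4 : List (List (Fin 3)) :=
  [[1], [2, 1, 0, 1, 1], [2, 1, 1, 0, 0, 0], [2, 1, 1, 1, 1, 0]]

theorem v4_far {src dst : E → V} (h : Spread src dst) : FarVertices src dst 4 5 :=
  far_vertices h v4 rfl (by decide +kernel)

def v3 : List (List (Fin 3)) :=
  [[], [2, 0, 0, 0, 0, 0], [2, 0, 0, 1, 0, 0]]

theorem v3_far {src dst : E → V} (h : Spread src dst) : FarVertices src dst 3 6 :=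
  far_vertices h v3 rfl (by decide +kernel)

def e27 : List (List (Fin 3) × Fin 3) :=
  [([0], 1), ([1], 0), ([0, 0, 0, 0], 1), ([0, 0, 0, 1], 1), ([0, 0, 1, 0], 1), ([0, 0, 1, 1],
   0), ([0, 1, 0, 0], 1), ([0, 1, 0, 1], 0), ([0, 1, 1, 0], 1), ([0, 1, 1, 1], 0), ([1, 0, 0,
   0], 1), ([1, 0, 0, 1], 0), ([1, 0, 1, 0], 1), ([1, 0, 1, 1], 0), ([1, 1, 0, 0], 1), ([1, 1,
   0, 1], 0), ([1, 1, 1, 0], 1), ([1, 1, 1, 1], 0), ([2], 1), ([2, 0, 0, 0], 1), ([2, 0, 0,
   1], 1), ([2, 0, 1, 0], 1), ([2, 0, 1, 1], 1), ([2, 1, 0, 0], 1), ([2, 1, 0, 1], 1), ([2, 1,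
   1, 0], 1), ([2, 1, 1, 1], 1)]

theorem e27_far {src dst : E → V} (h : Spread src dst) : FarEdges src dst 27 2 :=
  far_edges h e27 rfl (by decide +kernel)

def e9 : List (List (Fin 3) × Fin 3) :=
  [([0, 1], 1), ([1, 1], 1), ([2], 1), ([2, 0, 0, 0], 1), ([2, 0, 1, 1], 1), ([2, 1, 0, 0, 1],
   1), ([2, 1, 0, 1, 1], 1), ([2, 1, 1, 0, 1], 1), ([2, 1, 1, 1, 1], 1)]

theorem e9_far {src dst : E → V} (h : Spread src dst) : FarEdges src dst 9 3 :=
  far_edges h e9 rfl (by decide +kernel)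

def e6 : List (List (Fin 3) × Fin 3) :=
  [([1], 1), ([2, 0, 0], 1), ([2, 1, 0, 0, 1], 1), ([2, 1, 0, 1, 0], 0), ([2, 1, 1, 0, 1], 1),
   ([2, 1, 1, 1, 1], 0)]

theorem e6_far {src dst : E → V} (h : Spread src dst) : FarEdges src dst 6 4 :=
  far_edges h e6 rfl (by decide +kernel)

def e2 : List (List (Fin 3) × Fin 3) :=
  [([2, 0], 1), ([2, 1, 1, 1, 1], 0)]

theorem e2_far {src dst : E → V} (h : Spread src dst) : FarEdges src dst 2 5 :=
  far_edges h e2 rfl (by decide +kernel)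

end Pool.Agent.U875.SP
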