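import Mathlib

/-!
# Spread graphs

A finite multigraph has the vertex set `V` and the edge set `E`; the ends of the edge `e` are `src e`
and `dst e`.
-/

set_option autoImplicit false

namespace Pool.Agent.U875.SP

variable {V E : Type}

/-- There is a walk with `m` edges from `u` to `v`. -/
def HasWalk (src dst : E → V) (m : ℕ) (u v : V) : Prop :=
  ∃ p : ℕ → V, p 0 = u ∧ p m = v ∧
    ∀ i < m, ∃ e, (src e = p i ∧ dst e = p (i + 1)) ∨ (src e = p (i + 1) ∧ dst e = p i)

/-- The distance of `u` and `v` is at least `d`. -/
def Apart (src dst : E → V) (d : ℕ) (u v : V) : Prop := ∀ m, HasWalk src dst m u v → d ≤ m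

/-- There are `k` vertices with pairwise distances at least `d`. -/
def FarVertices (src dst : E → V) (k d : ℕ) : Prop :=
  ∃ x : Fin k → V, ∀ i j, i ≠ j → Apart src dst d (x i) (x j)

/-- There are `k` edges (not loops) with pairwise distances at least `d`: each end of one edge has
distance at least `d` from each end of another edge. -/
def FarEdges (src dst : E → V) (k d : ℕ) : Prop :=
  ∃ e : Fin k → E, (∀ i, src (e i) ≠ dst (e i)) ∧ ∀ i j, i ≠ j →
    Apart src dst d (src (e i)) (src (e j)) ∧ Apart src dst d (src (e i)) (dst (e j)) ∧
      Apart src dst d (dst (e i)) (src (e j)) ∧ Apart src dst d (dst (e i)) (dst (e j))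

/-- The length of the longest common prefix of two words. -/
def commonPrefix : List (Fin 3) → List (Fin 3) → ℕ
  | x :: l, y :: m => if x = y then commonPrefix l m + 1 else 0
  | _, _ => 0

/-- The distance of two words in the tree in which `w` is joined to the words `w ++ [c]`. -/
def treeDistance (a b : List (Fin 3)) : ℕ := a.length + b.length - 2 * commonPrefix a b

/-- The words in which the letter `2` occurs at most in the first position; with the edges from `w`
to `w ++ [c]` they form the infinite cubic tree. -/
def IsVertex (w : List (Fin 3)) : Prop := ∀ c ∈ w.tail, c ≠ 2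

/-- The cubic tree is spread over the graph: its vertices `w` have classes `X w` of vertices of the
graph, classes of adjacent vertices of the tree are joined by an edge of the graph, and the vertices
in `X a` have distance at least `min t (12 - t)` from the vertices in `X b`, where `t` is the distance
of `a` and `b` in the tree. -/
def Spread (src dst : E → V) : Prop :=
  ∃ X : List (Fin 3) → Set V,
    (∀ w c, IsVertex (w ++ [c]) → ∃ e, (src e ∈ X w ∧ dst e ∈ X (w ++ [c])) ∨
      (dst e ∈ X w ∧ src e ∈ X (w ++ [c]))) ∧
    ∀ a b, IsVertex a → IsVertex b → ∀ u ∈ X a, ∀ v ∈ X b,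
      Apart src dst (min (treeDistance a b) (12 - treeDistance a b)) u v

end Pool.Agent.U875.SP
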