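import Pool.Agent.Y335.FL.Order
import Pool.Agent.U875.SP.Defs

/-!
# The cubic tree in a graph of girth at least twelve

In a graph of girth at least twelve in which every vertex has three neighbours the infinite cubic
tree is mapped such that the distance of the images of `a` and `b` is at least
`min (dist a b) (12 - dist a b)`.
-/

set_option autoImplicit false
set_option linter.unusedSectionVars false

namespace Pool.Agent.U875.SP

open Finset Pool.Agent.Y335.FL

section path

variable {V : Type} [Fintype V] {G : SimpleGraph V}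

/-- walks of length at most eleven without backtracking are paths -/
theorem seq_path (h12 : ∀ (w : V) (c : G.Walk w w), c.IsCycle → 12 ≤ c.length) (s : ℕ → V) :
    ∀ l : ℕ, l ≤ 11 → (∀ i < l, G.Adj (s i) (s (i + 1))) → (∀ i, i + 2 ≤ l → s i ≠ s (i + 2)) →
    ∃ p : G.Walk (s 0) (s l), p.IsPath ∧ p.length = l ∧ (0 < l → p.penultimate = s (l - 1)) := by
  classical
  intro l
  induction l with
  | zero =>
    intro _ _ _
    exact ⟨SimpleGraph.Walk.nil, SimpleGraph.Walk.IsPath.nil, rfl, fun h => absurd h (lt_irrefl _)⟩
  | succ l ih =>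
    intro hl hadj hnb
    obtain ⟨p, hp, hpl, hpen⟩ := ih (by omega) (fun i hi => hadj i (by omega))
      (fun i hi => hnb i (by omega))
    have hw : G.Adj (s l) (s (l + 1)) := hadj l (by omega)
    have hnot : s (l + 1) ∉ p.support := by
      intro hws
      have e := Ord.uniq h12 (hp.dropUntil hws) (Ord.edge_path hw.symm) (by
        have h5 := p.length_dropUntil_le_length hws
        simp only [SimpleGraph.Walk.length_cons, SimpleGraph.Walk.length_nil]
        omega)
      have e2 : p = (p.takeUntil _ hws).concat hw.symm := by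
        rw [SimpleGraph.Walk.concat_eq_append, ← e, SimpleGraph.Walk.take_spec]
      have e3 : p.penultimate = s (l + 1) := by
        rw [e2, SimpleGraph.Walk.penultimate_concat]
      have e4 : p.length ≠ 0 := by
        rw [e2, SimpleGraph.Walk.length_concat]
        omega
      have h6 := hpen (by omega)
      have h7 := hnb (l - 1) (by omega)
      rw [show l - 1 + 2 = l + 1 by omega] at h7
      exact h7 (h6.symm.trans e3)
    refine ⟨p.concat hw, hp.concat hnot hw, ?_, fun _ => ?_⟩
    · rw [SimpleGraph.Walk.length_concat, hpl]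
    · rw [SimpleGraph.Walk.penultimate_concat]
      simp

/-- two branches -/
theorem vee (h12 : ∀ (w : V) (c : G.Walk w w), c.IsCycle → 12 ≤ c.length) (u v : ℕ → V) (m n : ℕ)
    (h0 : u 0 = v 0) (hl : m + n ≤ 11) (hu : ∀ i < m, G.Adj (u i) (u (i + 1)))
    (hv : ∀ i < n, G.Adj (v i) (v (i + 1))) (hu2 : ∀ i, i + 2 ≤ m → u i ≠ u (i + 2))
    (hv2 : ∀ i, i + 2 ≤ n → v i ≠ v (i + 2)) (h1 : 1 ≤ m → 1 ≤ n → u 1 ≠ v 1) :
    ∃ p : G.Walk (u m) (v n), p.IsPath ∧ p.length = m + n := by
  have key := seq_path h12 (fun i => if i ≤ m then u (m - i) else v (i - m)) (m + n) hl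
    (by
      intro i hi
      by_cases h2 : i + 1 ≤ m
      · simp only [if_pos (show i ≤ m by omega), if_pos h2]
        have h3 := hu (m - (i + 1)) (by omega)
        rw [show m - (i + 1) + 1 = m - i by omega] at h3
        exact h3.symm
      · by_cases h3 : i ≤ m
        · have h4 : i = m := by omega
          simp only [if_pos h3, if_neg h2]
          rw [h4, Nat.sub_self, h0, show m + 1 - m = 0 + 1 by omega]
          exact hv 0 (by omega)
        · simp only [if_neg h3, if_neg h2]
          have h4 := hv (i - m) (by omega)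
          rwa [show i - m + 1 = i + 1 - m by omega] at h4)
    (by
      intro i hi
      by_cases h2 : i + 2 ≤ m
      · simp only [if_pos (show i ≤ m by omega), if_pos h2]
        have h3 := hu2 (m - (i + 2)) (by omega)
        rw [show m - (i + 2) + 2 = m - i by omega] at h3
        exact h3.symm
      · by_cases h3 : i < m
        · have h4 : i + 1 = m := by omega
          simp only [if_pos (show i ≤ m by omega), if_neg h2]
          rw [show m - i = 1 by omega, show i + 2 - m = 1 by omega]
          exact h1 (by omega) (by omega)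
        · by_cases h5 : i = m
          · simp only [if_pos (show i ≤ m by omega), if_neg h2]
            rw [h5, Nat.sub_self, h0, show m + 2 - m = 0 + 2 by omega]
            exact hv2 0 (by omega)
          · simp only [if_neg (show ¬ i ≤ m by omega), if_neg h2]
            have h4 := hv2 (i - m) (by omega)
            rwa [show i - m + 2 = i + 2 - m by omega] at h4)
  obtain ⟨p, hp, hpl, -⟩ := key
  have e1 : (fun i => if i ≤ m then u (m - i) else v (i - m)) 0 = u m := by simp
  have e2 : (fun i => if i ≤ m then u (m - i) else v (i - m)) (m + n) = v n := by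
    by_cases hn : n = 0
    · subst hn
      simp [h0]
    · simp only [if_neg (show ¬ m + n ≤ m by omega)]
      rw [show m + n - m = n by omega]
  exact ⟨p.copy e1 e2, (SimpleGraph.Walk.isPath_copy p e1 e2).2 hp,
    (SimpleGraph.Walk.length_copy p e1 e2).trans hpl⟩

end path

/-- the lower bound of the distance of the images -/
def sf (a b : List (Fin 3)) : ℕ := min (treeDistance a b) (12 - treeDistance a b)

instance (w : List (Fin 3)) : Decidable (IsVertex w) := by unfold IsVertex; infer_instance

/-- the common prefix -/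
theorem split (a : List (Fin 3)) : ∀ b : List (Fin 3), ∃ c a' b', a = c ++ a' ∧ b = c ++ b' ∧
    c.length = commonPrefix a b ∧ ∀ x y l m, a' = x :: l → b' = y :: m → x ≠ y := by
  induction a with
  | nil =>
    intro b
    exact ⟨[], [], b, rfl, rfl, by simp [commonPrefix], fun x y l m h _ => absurd h (by simp)⟩
  | cons x l ih =>
    intro b
    cases b with
    | nil => exact ⟨[], x :: l, [], rfl, rfl, by simp [commonPrefix], fun x y l m _ h => absurd h (by simp)⟩
    | cons y m =>
      by_cases h : x = y
      · obtain ⟨c, a', b', h1, h2, h3, h4⟩ := ih m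
        refine ⟨x :: c, a', b', by rw [h1]; rfl, by rw [h2, h]; rfl, ?_, h4⟩
        rw [commonPrefix, if_pos h, ← h3]
        rfl
      · refine ⟨[], x :: l, y :: m, rfl, rfl, by simp [commonPrefix, h], ?_⟩
        intro x' y' l' m' h1 h2
        injection h1 with h1 _
        injection h2 with h2 _
        rw [← h1, ← h2]
        exact h

theorem IsVertex.left {a b : List (Fin 3)} (h : IsVertex (a ++ b)) : IsVertex a := by
  intro c hc
  apply h c
  cases a with
  | nil => simp at hc
  | cons x l =>
    simp only [List.tail_cons, List.cons_append] at hc ⊢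
    exact List.mem_append_left _ hc

section tree

variable {V : Type} (nb : V → Fin 3 → V)

/-- one step in the tree: the vertex and its predecessor -/
def step [DecidableEq V] (p : V × V) (c : Fin 3) : V × V :=
  (if nb p.1 c = p.2 then nb p.1 2 else nb p.1 c, p.1)

/-- the state after the word -/
def st [DecidableEq V] (x : V) (w : List (Fin 3)) : V × V := w.foldl (step nb) (x, x)

/-- the image of the word -/
def tr [DecidableEq V] (x : V) (w : List (Fin 3)) : V := (st nb x w).1

variable [DecidableEq V] {nb} {G : SimpleGraph V} {x : V}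

theorem st_concat (w : List (Fin 3)) (c : Fin 3) :
    st nb x (w ++ [c]) = step nb (st nb x w) c := by
  unfold st
  rw [List.foldl_append]
  rfl

theorem st_snd (w : List (Fin 3)) (c : Fin 3) : (st nb x (w ++ [c])).2 = tr nb x w := by
  rw [st_concat]
  rfl

theorem tr_concat (w : List (Fin 3)) (c : Fin 3) : tr nb x (w ++ [c]) =
    if nb (tr nb x w) c = (st nb x w).2 then nb (tr nb x w) 2 else nb (tr nb x w) c := by
  unfold tr
  rw [st_concat]
  rfl

/-- the vertices of the component have three neighbours -/
structure Nb (G : SimpleGraph V) (nb : V → Fin 3 → V) : Prop where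
  adj : ∀ v c, (∃ u, G.Adj v u) → G.Adj v (nb v c)
  inj : ∀ v, (∃ u, G.Adj v u) → Function.Injective (nb v)

theorem tr_ni (h : Nb G nb) (hx : ∃ u, G.Adj x u) (w : List (Fin 3)) : ∃ u, G.Adj (tr nb x w) u := by
  induction w using List.reverseRecOn with
  | nil => exact hx
  | append_singleton w c ih =>
    rw [tr_concat]
    split_ifs
    · exact ⟨_, (h.adj _ 2 ih).symm⟩
    · exact ⟨_, (h.adj _ c ih).symm⟩

theorem tr_adj (h : Nb G nb) (hx : ∃ u, G.Adj x u) (w : List (Fin 3)) (c : Fin 3) :
    G.Adj (tr nb x w) (tr nb x (w ++ [c])) := by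
  have h1 := tr_ni h hx w
  rw [tr_concat]
  split_ifs
  · exact h.adj _ 2 h1
  · exact h.adj _ c h1

theorem tr_two (h : Nb G nb) (hx : ∃ u, G.Adj x u) (w : List (Fin 3)) (c c' : Fin 3)
    (hc : c' ≠ 2) : tr nb x w ≠ tr nb x (w ++ [c] ++ [c']) := by
  have h1 := tr_ni h hx (w ++ [c])
  rw [tr_concat (w ++ [c]) c', st_snd]
  split_ifs with h2
  · intro h3
    exact hc (h.inj _ h1 (h2.trans h3))
  · exact fun h3 => h2 h3.symm

theorem tr_ne (h : Nb G nb) (hx : ∃ u, G.Adj x u) (w : List (Fin 3)) (c c' : Fin 3)
    (hw : w ≠ [] → c ≠ 2 ∧ c' ≠ 2) (hne : c ≠ c') :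
    tr nb x (w ++ [c]) ≠ tr nb x (w ++ [c']) := by
  have h1 := tr_ni h hx w
  have hinj := h.inj _ h1
  rw [tr_concat, tr_concat]
  by_cases hw' : w = []
  · subst hw'
    have h2 : ∀ c, nb (tr nb x []) c ≠ (st nb x []).2 := by
      intro c h3
      have h4 := h.adj x c hx
      have h5 : nb x c = x := h3
      rw [h5] at h4
      exact h4.ne rfl
    rw [if_neg (h2 c), if_neg (h2 c')]
    exact fun h3 => hne (hinj h3)
  · obtain ⟨h2, h3⟩ := hw hw'
    split_ifs with h4 h5 h5
    · exact fun _ => hne (hinj (h4.trans h5.symm))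
    · exact fun h6 => h3 (hinj h6).symm
    · exact fun h6 => h2 (hinj h6)
    · exact fun h6 => hne (hinj h6)

variable [Fintype V]

omit [DecidableEq V] [Fintype V] in
theorem take_succ' (l : List (Fin 3)) (j : ℕ) (hj : j < l.length) :
    l.take (j + 1) = l.take j ++ [l[j]] := by
  rw [List.take_succ_eq_append_getElem hj]

/-- **The path between two images.** -/
theorem tr_path (h12 : ∀ (w : V) (c : G.Walk w w), c.IsCycle → 12 ≤ c.length) (h : Nb G nb)
    (hx : ∃ u, G.Adj x u) (a b : List (Fin 3)) (ha : IsVertex a) (hb : IsVertex b) (hd : treeDistance a b ≤ 11) :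
    ∃ p : G.Walk (tr nb x a) (tr nb x b), p.IsPath ∧ p.length = treeDistance a b := by
  obtain ⟨c, a', b', rfl, rfl, hc, hhd⟩ := split a b
  have hdT : treeDistance (c ++ a') (c ++ b') = a'.length + b'.length := by
    unfold treeDistance
    rw [← hc, List.length_append, List.length_append]
    omega
  have hletter : ∀ (a' : List (Fin 3)), IsVertex (c ++ a') → ∀ j (hj : j < a'.length), (0 < j ∨ c ≠ []) →
      a'[j] ≠ 2 := by
    intro a' ha j hj h0
    apply ha
    cases c with
    | nil =>
      rw [List.nil_append]
      cases a' with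
      | nil => simp at hj
      | cons y m =>
        rcases h0 with h0 | h0
        · obtain ⟨k, rfl⟩ : ∃ k, j = k + 1 := ⟨j - 1, by omega⟩
          simp only [List.getElem_cons_succ, List.tail_cons]
          exact List.getElem_mem _
        · exact absurd rfl h0
    | cons z n =>
      simp only [List.cons_append, List.tail_cons]
      exact List.mem_append_right _ (List.getElem_mem _)
  have hadj : ∀ (a' : List (Fin 3)) (i : ℕ), i < a'.length →
      G.Adj (tr nb x (c ++ a'.take i)) (tr nb x (c ++ a'.take (i + 1))) := by
    intro a' i hi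
    rw [take_succ' a' i hi, ← List.append_assoc]
    exact tr_adj h hx _ _
  have hnb : ∀ (a' : List (Fin 3)), IsVertex (c ++ a') → ∀ i, i + 2 ≤ a'.length →
      tr nb x (c ++ a'.take i) ≠ tr nb x (c ++ a'.take (i + 2)) := by
    intro a' ha i hi
    rw [take_succ' a' (i + 1) (by omega), take_succ' a' i (by omega), ← List.append_assoc,
      ← List.append_assoc]
    exact tr_two h hx _ _ _ (hletter a' ha (i + 1) (by omega) (Or.inl (by omega)))
  have key := vee h12 (fun j => tr nb x (c ++ a'.take j)) (fun j => tr nb x (c ++ b'.take j))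
    a'.length b'.length (by simp) (by rw [← hdT]; exact hd) (hadj a') (hadj b') (hnb a' ha)
    (hnb b' hb) (by
      intro h1 h2
      cases a' with
      | nil => simp at h1
      | cons y m =>
        cases b' with
        | nil => simp at h2
        | cons z n =>
          have h3 : y ≠ z := hhd y z m n rfl rfl
          refine tr_ne h hx c y z (fun h4 => ?_) h3
          exact ⟨hletter (y :: m) ha 0 (by simp) (Or.inr h4),
            hletter (z :: n) hb 0 (by simp) (Or.inr h4)⟩)
  obtain ⟨p, hp, hpl⟩ := key
  have e1 : (fun j => tr nb x (c ++ a'.take j)) a'.length = tr nb x (c ++ a') := by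
    simp
  have e2 : (fun j => tr nb x (c ++ b'.take j)) b'.length = tr nb x (c ++ b') := by
    simp
  refine ⟨p.copy e1 e2, (SimpleGraph.Walk.isPath_copy p e1 e2).2 hp, ?_⟩
  rw [hdT]
  exact (SimpleGraph.Walk.length_copy p e1 e2).trans hpl

/-- **The distance of the images.** -/
theorem tr_dist (h12 : ∀ (w : V) (c : G.Walk w w), c.IsCycle → 12 ≤ c.length) (h : Nb G nb)
    (hx : ∃ u, G.Adj x u) (a b : List (Fin 3)) (ha : IsVertex a) (hb : IsVertex b)
    (q : G.Walk (tr nb x a) (tr nb x b)) : sf a b ≤ q.length := by
  by_cases hd : 12 ≤ treeDistance a b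
  · unfold sf
    omega
  obtain ⟨p, hp, hpl⟩ := tr_path h12 h hx a b ha hb (by omega)
  by_contra hcon
  push Not at hcon
  unfold sf at hcon
  have h1 := q.length_bypass_le_length
  have e := Ord.uniq h12 hp q.bypass_isPath (by omega)
  have e2 := congrArg SimpleGraph.Walk.length e
  omega

end tree

end Pool.Agent.U875.SP
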